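import Mathlib

/-! The lattice of antichains of intervals, its width and its largest level. -/

namespace Pool.Agent.P.MP_e6a929_co

open Finset

/-- The intervals of `{0, …, n - 1}`, the empty set included. -/
def Itv (n : ℕ) : Finset (Finset (Fin n)) :=
  univ.filter fun I => ∀ x ∈ I, ∀ y ∈ I, ∀ z, x ≤ z → z ≤ y → z ∈ I

/-- The antichains of intervals. -/
def E (n : ℕ) : Finset (Finset (Finset (Fin n))) :=
  (Itv n).powerset.filter fun A => ∀ I ∈ A, ∀ J ∈ A, I ⊆ J → I = J

/-- The order of the lattice. -/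
def Le {n : ℕ} (A B : Finset (Finset (Fin n))) : Prop := ∀ I ∈ A, ∃ J ∈ B, J ⊆ I

instance {n : ℕ} (A B : Finset (Finset (Fin n))) : Decidable (Le A B) :=
  inferInstanceAs (Decidable (∀ I ∈ A, ∃ J ∈ B, J ⊆ I))

/-- The rank: the number of intervals containing a member of `A`. -/
def rank (n : ℕ) (A : Finset (Finset (Fin n))) : ℕ :=
  ((Itv n).filter fun K => ∃ J ∈ A, J ⊆ K).card

/-- The largest size of an antichain of the lattice. -/
def width (n : ℕ) : ℕ :=
  ((E n).powerset.filter fun F => ∀ A ∈ F, ∀ B ∈ F, Le A B → A = B).sup card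

/-- The largest size of a level. -/
def maxLevel (n : ℕ) : ℕ :=
  (E n).sup fun A => ((E n).filter fun B => rank n B = rank n A).card

end Pool.Agent.P.MP_e6a929_co
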